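import Pool.Agent.PST.StmtsET3

/-!
# Squad PST, block ET, row LCL: the local class
-/

open scoped BigOperators TensorProduct

noncomputable section

namespace Pool.Agent.PST.ET.H4

open Pool.Agent.PFD.D2 (Cdv FibG)
open Pool.Agent.PFC (Fx BK cj bi tw PS Frm PMid PIn Ctf IA BQ Cor)
open Pool.Agent.PFC.B5c (bd)
open Pool.Agent.PSS.S5 (Lc LcpStmt LkcStmt)

/-- From a corner which is full and of class `1` modulo commutators. -/
theorem lcl_corner (ilf : IlfStmt) (cre : CreStmt) (crg : CrgStmt) (crs : CrsStmt) (loc : LocStmt)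
    (bcm : BcmStmt) (klf : KlfStmt) (tau : TauStmt) (fun_ : FunStmt) (fcz : FczStmt)
    (tor : TorStmt) (ℓ r : ℕ) [Fact ℓ.Prime] (R F V E B D Y L : Type) [CommRing R] [IsDomain R]
    [IsPrincipalIdealRing R] [CharP R ℓ] [Field F] [CharP F ℓ] [CommGroup V] [Fintype V]
    [Group E] [Finite E] [Ring B] [Algebra F B] [Ring D] [Algebra R D]
    [Module.Finite R D] [Module.Free R D] [Ring Y] [Algebra F Y] [Fintype L] (c : Cdv R F)
    (g : FibG D B c) (φ : E →* MulAut V) (β : V →* B) (αY : V →* Y) (lam xx : Fin r → V → F)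
    (t : Fin r → F) (T : D →ₗ[R] R) (x y : L → D) (j : B) (κ : Y →ₗ[F] B)
    (pg : IsPGroup ℓ V) (nt : Nontrivial V) (el : ∀ v : V, v ^ ℓ = 1) (cop : ¬ ℓ ∣ Nat.card E)
    (ed : EDat F lam xx t) (rg : Rgd ℓ c g β lam xx t) (sf : SFr R T x y)
    (jj : j * j = j) (cr : CrR j κ) (com : ∀ v, β v * j = j * β v)
    (cov : ∀ v, κ (αY v) = β v * j) (bk : 1 - j ∈ BK (cj F β) ⊤) (pm : PMid F φ ⊥ αY)
    (full : (1 : B) ∈ Submodule.span F {x | ∃ a b, x = a * j * b}) :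
    ∃ z : D, IsUnit z ∧ (∀ a, z * a = a * z) ∧ ∑ k, x k * y k = c.π ^ r • z := by
  obtain ⟨j', hj', hq⟩ := ilf R F D B c g j jj
  have cr' : CrR (g.q j') κ := by rw [hq]; exact cr
  obtain ⟨Ys, i1, i2, i3, i4, κs, fY, crs', hfY⟩ := cre R F D B Y c g j' κ hj' cr'
  have hrg : Rgd ℓ c fY αY lam xx t := by
    refine crg ℓ r R F V D B Y Ys c g fY β αY j' κ κs lam xx t hj' cr' crs' hfY ?_ ?_ rg
    · intro v; rw [hq]; exact com v
    · intro v; rw [hq]; exact cov v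
  obtain ⟨x', y', sf', hxy⟩ := crs R D Ys L T x y j' κs sf hj' crs'
  obtain ⟨u, hu, huc, hus⟩ := loc ℓ r R F V E Y Ys L c fY φ αY lam xx t (T.comp κs) x' y' pg nt
    el cop pm ed hrg sf'
  obtain ⟨tau1, -, tau3⟩ := tau R D L T x y sf
  have hjt : j' * ∑ k, x k * j' * y k = c.π ^ r • κs u := by
    rw [← hxy, hus, map_smul]
  -- `1 - j'` is a sum of commutators
  have h1 : 1 - j' ∈ cmt R D := by
    have h2 := klf ℓ R F D B (Fin 2) c g ![1, j'] ![1, -1] ?_ ?_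
    · simpa [Fin.sum_univ_two, sub_eq_add_neg] using h2
    · intro i
      fin_cases i
      · simp
      · simpa using hj'
    · have h3 : (∑ i : Fin 2, (![1, -1] : Fin 2 → ℤ) i • g.q ((![1, j'] : Fin 2 → D) i)) =
          1 - j := by
        rw [Fin.sum_univ_two]
        simp [hq, sub_eq_add_neg]
      rw [h3]
      exact bcm ℓ F V B β pg _ bk
  have h4 : ∑ k, x k * 1 * y k = ∑ k, x k * j' * y k := by
    have h5 := tau3 _ h1
    simp only [mul_sub, sub_mul, Finset.sum_sub_distrib] at h5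
    exact sub_eq_zero.1 h5
  have h6 : (1 : D) ∈ Submodule.span R {x : D | ∃ s t : D, x = s * j' * t} := by
    refine fun_ R F D B c g 1 j' (mul_one 1) (fun a => by rw [one_mul, mul_one]) ?_
    rw [map_one, hq]
    exact full
  obtain ⟨v, hv⟩ := hu
  have h7 : ∀ w : Ys, j' * κs w = κs w := fun w => by
    rw [← crs'.one, ← crs'.mul, one_mul]
  have h8 : ∀ w : Ys, κs w * j' = κs w := fun w => by
    rw [← crs'.one, ← crs'.mul, mul_one]
  obtain ⟨z, z', hz, hz', hzz, -, hτ⟩ := fcz R D (c.π ^ r) 1 j' (∑ k, x k * 1 * y k) (κs u)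
    (κs ((v⁻¹ : Ysˣ) : Ys)) (fun a ha => (tor R F D c).1 r a ha) (mul_one 1)
    (fun a => by rw [one_mul, mul_one]) hj' h6 (fun a => (tau1 1 a).symm) (mul_one _)
    (by rw [h4]; exact hjt) (h7 _) (h8 _) (h7 _) (h8 _)
    (by rw [← crs'.mul, ← hv, Units.mul_inv, crs'.one])
    (by rw [← crs'.mul, ← hv, Units.inv_mul, crs'.one])
  refine ⟨z, ⟨⟨z, z', hzz, by rw [← hz, hzz]⟩, rfl⟩, hz, ?_⟩
  rw [← hτ]
  simp only [mul_one]

theorem lcl (co2 : Co2Stmt) (twf : TwfStmt) (twr : TwrStmt) (twc : TwcStmt) (twz : TwzStmt)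
    (ilf : IlfStmt) (cre : CreStmt) (crg : CrgStmt) (crs : CrsStmt) (loc : LocStmt)
    (bcm : BcmStmt) (klf : KlfStmt) (tau : TauStmt) (fun_ : FunStmt) (fcz : FczStmt)
    (tor : TorStmt) (lcp : LcpStmt) (lkc : LkcStmt) : LclStmt := by
  intro ℓ r _ R F V E H Hs K _ _ _ _ _ _ _ _ _ _ _ _ _ _ _ _ _ _ _ c f φ α lam xx t T x y
    hκ pg nt el cop free lc ed rg sf
  have hE : Fintype E := Fintype.ofFinite E
  have hfd : FiniteDimensional F H := lc.fin
  have ctf : Ctf ℓ φ (⊥ : Subgroup V) := by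
    refine ⟨Fact.out, pg, ?_, cop, ?_, ⟨⊤, isCompl_top_bot, fun _ _ _ => trivial⟩, ?_⟩
    · obtain ⟨u, hu⟩ := exists_ne (1 : V)
      exact ⟨u, fun h' => hu (Subgroup.mem_bot.1 h')⟩
    · intro e u hu
      rw [Subgroup.mem_bot.1 hu, map_one]
      exact Subgroup.one_mem _
    · intro e u hu
      rcases free e u hu with h1 | h1
      · exact Or.inl h1
      · exact Or.inr (Subgroup.mem_bot.2 h1)
  have pin : PIn F φ (⊥ : Subgroup V) α := by
    have h1 := lcp ℓ F V E H φ α (fun Q => ¬ Q ≤ ⊥) pg lc ?_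
    · exact ⟨h1.fin, h1.frm, h1.loc, h1.ps, h1.top, h1.lcq, h1.uni⟩
    · intro Q hQ
      refine lkc ℓ F V E H φ α Q pg lc ?_
      intro e he
      obtain ⟨u, hu, hu1⟩ : ∃ u ∈ Q, u ∉ (⊥ : Subgroup V) := SetLike.not_le_iff_exists.1 hQ
      rcases free e u (he u hu) with h2 | h2
      · rw [h2, map_one]
      · exact absurd (Subgroup.mem_bot.2 h2) hu1
  obtain ⟨N, Y', j, κ, n, n0, nF, ⟨e⟩, hbk, hcor, jj, hj1, pm, hfull⟩ :=
    co2 ℓ F V E H φ α ctf pin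
  obtain ⟨g, hg⟩ := twf n R F N.A H Hs c f e
  have rg' := twr ℓ r n R F V N.A H Hs c f e g N.ι α (N.tens (bd F α)).ι lam xx t hκ hg
    (fun v => rfl) pg el hbk rg
  obtain ⟨T', L, _, X, Y, sf', hXY⟩ := twc n R Hs K T x y sf
  have hcr : CrR j κ := ⟨hcor.inj, hcor.mul, hcor.one, hcor.ran⟩
  obtain ⟨z, hz, hzc, hzs⟩ := lcl_corner ilf cre crg crs loc bcm klf tau fun_ fcz tor ℓ r R F V E
    (N.A ⊗[F] H) (Matrix (Fin n) (Fin n) Hs) Y'.A L c g φ (N.tens (bd F α)).ι Y'.ι lam xx t T' X Y j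
    κ pg nt el cop ed rg' sf' jj hcr hcor.com hcor.cov hj1 pm hfull
  obtain ⟨z1, hz1, hz1c, rfl⟩ := twz n Hs n0 z hz hzc
  rw [hXY] at hzs
  have h2 : (n : R) • ∑ k, x k * y k = c.π ^ r • z1 := by
    have h3 := congrFun (congrFun hzs ⟨0, n0⟩) ⟨0, n0⟩
    simpa [Matrix.scalar_apply, Matrix.smul_apply] using h3
  have h4 : IsUnit (n : R) := by
    apply c.loc
    rw [map_natCast]
    exact nF
  obtain ⟨m, hm⟩ := h4
  refine ⟨((m⁻¹ : Rˣ) : R) • z1, ?_, ?_, ?_⟩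
  · have h5 : IsUnit (algebraMap R Hs ((m⁻¹ : Rˣ) : R)) := (m⁻¹).isUnit.map _
    rw [Algebra.smul_def]
    exact h5.mul hz1
  · intro a
    rw [smul_mul_assoc, mul_smul_comm, hz1c]
  · rw [smul_comm, ← h2, ← hm, smul_smul, Units.inv_mul, one_smul]

end Pool.Agent.PST.ET.H4
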